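import Mathlib

/-!
Two subsets of the discrete cube at large Hamming distance are small, and a subset of the cube without
two nearly antipodal points is small.
-/

set_option autoImplicit false

namespace Pool.Agent.H193R2.Cube

open Finset

/-- the section of `X` at the first coordinate `i` -/
def sec {d : ℕ} (X : Finset (Fin (d + 1) → Bool)) (i : Bool) : Finset (Fin d → Bool) :=
  univ.filter (fun x => (Fin.cons i x : Fin (d + 1) → Bool) ∈ X)

theorem mem_sec {d : ℕ} {X : Finset (Fin (d + 1) → Bool)} {i : Bool} {x : Fin d → Bool} :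
    x ∈ sec X i ↔ (Fin.cons i x : Fin (d + 1) → Bool) ∈ X := by
  simp [sec]

theorem card_sec {d : ℕ} (X : Finset (Fin (d + 1) → Bool)) :
    X.card = (sec X false).card + (sec X true).card := by
  have h : X = (sec X false).image (fun x => (Fin.cons false x : Fin (d + 1) → Bool)) ∪
      (sec X true).image (fun x => (Fin.cons true x : Fin (d + 1) → Bool)) := by
    ext x
    simp only [mem_union, mem_image, mem_sec]
    constructor
    · intro hx
      rcases hb : x 0 with _ | _
      · left
        refine ⟨Fin.tail x, ?_, ?_⟩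
        · rw [← hb, Fin.cons_self_tail]; exact hx
        · rw [← hb, Fin.cons_self_tail]
      · right
        refine ⟨Fin.tail x, ?_, ?_⟩
        · rw [← hb, Fin.cons_self_tail]; exact hx
        · rw [← hb, Fin.cons_self_tail]
    · rintro (⟨y, hy, rfl⟩ | ⟨y, hy, rfl⟩) <;> exact hy
  have hd : Disjoint ((sec X false).image (fun x => (Fin.cons false x : Fin (d + 1) → Bool)))
      ((sec X true).image (fun x => (Fin.cons true x : Fin (d + 1) → Bool))) := by
    rw [Finset.disjoint_left]
    intro x hx hy
    rw [mem_image] at hx hy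
    obtain ⟨a, _, ha⟩ := hx
    obtain ⟨b, _, hb⟩ := hy
    have := congrFun (ha.trans hb.symm) 0
    simp at this
  conv_lhs => rw [h]
  rw [card_union_of_disjoint hd, card_image_of_injective _ (Fin.cons_right_injective _),
    card_image_of_injective _ (Fin.cons_right_injective _)]

theorem dist_cons {d : ℕ} (i j : Bool) (x y : Fin d → Bool) :
    hammingDist (Fin.cons i x : Fin (d + 1) → Bool) (Fin.cons j y)
      = (if i = j then 0 else 1) + hammingDist x y := by
  unfold hammingDist
  rw [Finset.card_filter, Finset.card_filter, Fin.sum_univ_succ]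
  simp only [Fin.cons_zero, Fin.cons_succ]
  congr 1
  by_cases hij : i = j
  · simp [hij]
  · simp [hij]

theorem four_le {a0 a1 b0 b1 z W : ℝ} (ha0 : 0 ≤ a0) (ha1 : 0 ≤ a1) (hb0 : 0 ≤ b0) (hb1 : 0 ≤ b1)
    (hz : 1 ≤ z) (hW : 0 ≤ W) (h00 : a0 * b0 ≤ W) (h11 : a1 * b1 ≤ W) (h01 : a0 * b1 ≤ z * W)
    (h10 : a1 * b0 ≤ z * W) : (a0 + a1) * (b0 + b1) ≤ (2 + z + 1 / z) * W := by
  have hz0 : 0 < z := by linarith
  set s := a0 * b1 with hs
  set t := a1 * b0 with ht
  have hs0 : 0 ≤ s := by positivity
  have ht0 : 0 ≤ t := by positivity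
  have hst : s * t ≤ W * W := by
    have : s * t = (a0 * b0) * (a1 * b1) := by rw [hs, ht]; ring
    rw [this]
    exact mul_le_mul h00 h11 (by positivity) hW
  have key : s + t ≤ (z + 1 / z) * W := by
    -- (zW - s)(zW - t) ≥ 0 gives z W (s + t) ≤ z² W² + s t ≤ (z² + 1) W²
    rcases hW.eq_or_lt with hW0 | hWpos
    · subst hW0
      simp only [mul_zero] at h01 h10 ⊢
      linarith
    · have h1 : 0 ≤ (z * W - s) * (z * W - t) := mul_nonneg (by linarith) (by linarith)
      have h2 : z * W * (s + t) ≤ z * W * ((z + 1 / z) * W) := by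
        have h3 : z * W * ((z + 1 / z) * W) = (z ^ 2 + 1) * (W * W) := by
          field_simp
        rw [h3]
        nlinarith
      exact le_of_mul_le_mul_left h2 (by positivity)
  have : (a0 + a1) * (b0 + b1) = a0 * b0 + a1 * b1 + (s + t) := by rw [hs, ht]; ring
  rw [this]
  have h5 : (2 + z + 1 / z) * W = W + W + (z + 1 / z) * W := by ring
  rw [h5]
  linarith

/-- If all points of `X` are at Hamming distance at least `r` from all points of `Y`, then
`|X| |Y| z ^ r ≤ (2 + z + 1 / z) ^ d` for every `z ≥ 1`. -/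
theorem two_sets (z : ℝ) (hz : 1 ≤ z) : ∀ (d : ℕ) (X Y : Finset (Fin d → Bool)) (r : ℕ),
    (∀ x ∈ X, ∀ y ∈ Y, r ≤ hammingDist x y) →
    (X.card : ℝ) * (Y.card : ℝ) * z ^ r ≤ (2 + z + 1 / z) ^ d := by
  have hz0 : 0 < z := by linarith
  intro d
  induction d with
  | zero =>
    intro X Y r h
    rcases X.eq_empty_or_nonempty with rfl | ⟨x, hx⟩
    · simp
    rcases Y.eq_empty_or_nonempty with rfl | ⟨y, hy⟩
    · simp
    have hr : r = 0 := by
      have h1 := h x hx y hy
      have h2 : hammingDist x y = 0 := by simp [hammingDist]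
      omega
    subst hr
    have hX : X.card ≤ 1 := by
      have := Finset.card_le_univ X
      simpa using this
    have hY : Y.card ≤ 1 := by
      have := Finset.card_le_univ Y
      simpa using this
    have hX' : (X.card : ℝ) ≤ 1 := by exact_mod_cast hX
    have hY' : (Y.card : ℝ) ≤ 1 := by exact_mod_cast hY
    simp only [pow_zero, mul_one]
    exact mul_le_one₀ hX' (by positivity) hY'
  | succ d ih =>
    intro X Y r h
    have hd : ∀ i j : Bool, ∀ x ∈ sec X i, ∀ y ∈ sec Y j,
        r ≤ (if i = j then 0 else 1) + hammingDist x y := by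
      intro i j x hx y hy
      rw [← dist_cons]
      exact h _ (mem_sec.1 hx) _ (mem_sec.1 hy)
    set Q : ℝ := (2 + z + 1 / z) ^ d with hQ
    have hQ0 : 0 ≤ Q := by positivity
    have h00 := ih (sec X false) (sec Y false) r (fun x hx y hy => by
      simpa using hd false false x hx y hy)
    have h11 := ih (sec X true) (sec Y true) r (fun x hx y hy => by
      simpa using hd true true x hx y hy)
    have h01 := ih (sec X false) (sec Y true) (r - 1) (fun x hx y hy => by
      have := hd false true x hx y hy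
      simp at this
      omega)
    have h10 := ih (sec X true) (sec Y false) (r - 1) (fun x hx y hy => by
      have := hd true false x hx y hy
      simp at this
      omega)
    have hzr : z ^ r ≤ z * z ^ (r - 1) := by
      rcases r with _ | r
      · simpa using hz
      · rw [Nat.add_sub_cancel, pow_succ]; exact le_of_eq (mul_comm _ _)
    have hzr0 : 0 < z ^ r := by positivity
    rw [card_sec X, card_sec Y]
    push_cast
    have key := four_le (a0 := (sec X false).card) (a1 := (sec X true).card)
      (b0 := (sec Y false).card) (b1 := (sec Y true).card) (z := z) (W := Q / z ^ r)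
      (by positivity) (by positivity) (by positivity) (by positivity) hz (by positivity)
      (by rw [le_div_iff₀ hzr0]; exact h00) (by rw [le_div_iff₀ hzr0]; exact h11)
      (by
        rw [← mul_div_assoc, le_div_iff₀ hzr0]
        calc _ ≤ ((sec X false).card : ℝ) * (sec Y true).card * (z * z ^ (r - 1)) := by gcongr
          _ = z * (((sec X false).card : ℝ) * (sec Y true).card * z ^ (r - 1)) := by ring
          _ ≤ z * Q := by gcongr)
      (by
        rw [← mul_div_assoc, le_div_iff₀ hzr0]
        calc _ ≤ ((sec X true).card : ℝ) * (sec Y false).card * (z * z ^ (r - 1)) := by gcongr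
          _ = z * (((sec X true).card : ℝ) * (sec Y false).card * z ^ (r - 1)) := by ring
          _ ≤ z * Q := by gcongr)
    rw [← mul_div_assoc, le_div_iff₀ hzr0] at key
    rw [pow_succ]
    calc _ ≤ (2 + z + 1 / z) * Q := key
      _ = _ := by rw [hQ]; ring

/-- the number of coordinates where `x` and `y` agree -/
def agree {d : ℕ} (x y : Fin d → Bool) : ℕ := (univ.filter (fun j => x j = y j)).card

theorem agree_eq {d : ℕ} (x y : Fin d → Bool) :
    hammingDist x (fun j => !(y j)) = agree x y := by
  unfold hammingDist agree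
  congr 1
  ext j
  simp only [mem_filter, mem_univ, true_and]
  cases x j <;> cases y j <;> simp

/-- A set of points of the cube any two of which agree in at least `η d` coordinates has at most
`2 ^ d exp (- η² d / 2)` elements. -/
theorem antipodal {d : ℕ} (X : Finset (Fin d → Bool)) (η : ℝ) (hη : 0 ≤ η)
    (h : ∀ x ∈ X, ∀ y ∈ X, η * d ≤ (agree x y : ℝ)) :
    (X.card : ℝ) ≤ 2 ^ d * Real.exp (-(η ^ 2 * d / 2)) := by
  classical
  set c : (Fin d → Bool) → (Fin d → Bool) := fun y j => !(y j) with hc
  have hcinj : Function.Injective c := by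
    intro x y hxy
    ext j
    have := congrFun hxy j
    simpa [hc] using this
  have h1 := two_sets (Real.exp (2 * η)) (Real.one_le_exp (by positivity)) d X (X.image c) ⌈η * d⌉₊
    (by
      intro x hx y hy
      obtain ⟨y', hy', rfl⟩ := mem_image.1 hy
      rw [hc, agree_eq]
      exact Nat.ceil_le.2 (h x hx y' hy'))
  rw [card_image_of_injective _ hcinj] at h1
  have h2 : Real.exp (2 * η) ^ ⌈η * d⌉₊ ≥ Real.exp (2 * η ^ 2 * d) := by
    rw [← Real.exp_nat_mul]
    apply Real.exp_le_exp.2
    have := Nat.le_ceil (η * d)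
    nlinarith
  have h3 : 2 + Real.exp (2 * η) + 1 / Real.exp (2 * η) ≤ 4 * Real.exp (η ^ 2) := by
    have h4 : 2 + Real.exp (2 * η) + 1 / Real.exp (2 * η) = 4 * Real.cosh η ^ 2 := by
      rw [Real.cosh_eq, one_div, ← Real.exp_neg]
      have e1 : Real.exp (2 * η) = Real.exp η * Real.exp η := by rw [← Real.exp_add]; ring_nf
      have e2 : Real.exp (-(2 * η)) = Real.exp (-η) * Real.exp (-η) := by
        rw [← Real.exp_add]; ring_nf
      have e3 : Real.exp η * Real.exp (-η) = 1 := by rw [← Real.exp_add]; simp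
      rw [e1, e2]
      nlinarith
    rw [h4]
    have h5 : Real.cosh η ≤ Real.exp (η ^ 2 / 2) := Real.cosh_le_exp_half_sq η
    have h6 : Real.cosh η ^ 2 ≤ Real.exp (η ^ 2 / 2) ^ 2 :=
      pow_le_pow_left₀ (Real.cosh_pos η).le h5 2
    have h7 : Real.exp (η ^ 2 / 2) ^ 2 = Real.exp (η ^ 2) := by
      rw [← Real.exp_nat_mul]; congr 1; push_cast; ring
    rw [h7] at h6
    linarith
  have h8 : (X.card : ℝ) ^ 2 * Real.exp (2 * η ^ 2 * d) ≤ 4 ^ d * Real.exp (η ^ 2 * d) := by
    calc (X.card : ℝ) ^ 2 * Real.exp (2 * η ^ 2 * d)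
        ≤ (X.card : ℝ) * X.card * Real.exp (2 * η) ^ ⌈η * d⌉₊ := by
          rw [sq]; gcongr
      _ ≤ (2 + Real.exp (2 * η) + 1 / Real.exp (2 * η)) ^ d := h1
      _ ≤ (4 * Real.exp (η ^ 2)) ^ d := by gcongr
      _ = 4 ^ d * Real.exp (η ^ 2 * d) := by
          rw [mul_pow, ← Real.exp_nat_mul]; congr 2; ring
  have h9 : (X.card : ℝ) ^ 2 ≤ (2 ^ d * Real.exp (-(η ^ 2 * d / 2))) ^ 2 := by
    have e1 : (2 ^ d * Real.exp (-(η ^ 2 * d / 2))) ^ 2 = 4 ^ d * Real.exp (-(η ^ 2 * d)) := by
      rw [mul_pow, ← Real.exp_nat_mul, ← pow_mul, mul_comm d 2, pow_mul]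
      norm_num
      ring_nf
    rw [e1]
    have e2 : Real.exp (2 * η ^ 2 * d) * Real.exp (-(2 * η ^ 2 * d)) = 1 := by
      rw [← Real.exp_add]; simp
    calc (X.card : ℝ) ^ 2 = (X.card : ℝ) ^ 2 * Real.exp (2 * η ^ 2 * d)
          * Real.exp (-(2 * η ^ 2 * d)) := by rw [mul_assoc, e2, mul_one]
      _ ≤ 4 ^ d * Real.exp (η ^ 2 * d) * Real.exp (-(2 * η ^ 2 * d)) := by gcongr
      _ = 4 ^ d * Real.exp (-(η ^ 2 * d)) := by
          rw [mul_assoc, ← Real.exp_add]; congr 2; ring
  exact (sq_le_sq₀ (by positivity) (by positivity)).1 h9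

end Pool.Agent.H193R2.Cube
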