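import Mathlib

/-!
Dependent random choice for set systems: among finitely many dense subsets of a finite set there is a
large subfamily all of whose members have large pairwise intersections.
-/

set_option autoImplicit false

namespace Pool.Agent.H193R2.DRC

open Finset

/-- Let `A i` (`i ∈ ι`) be subsets of `X`, each of density at least `c`, and let `N` be the number of
different sets among them. For every `t` there is a set `I` of at least `|ι| c ^ t - |ι| N ε ^ t`
indices such that `A i ∩ A j` has more than `ε |X|` elements for all `i, j ∈ I`. -/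
theorem drc {ι X : Type*} [Fintype ι] [DecidableEq ι] [Fintype X] [DecidableEq X]
    (A : ι → Finset X) (c ε : ℝ) (hc : 0 ≤ c) (hε : 0 ≤ ε) (t : ℕ)
    (hX : 0 < Fintype.card X)
    (hA : ∀ i, c * (Fintype.card X : ℝ) ≤ ((A i).card : ℝ)) :
    ∃ I : Finset ι, (Fintype.card ι : ℝ) * c ^ t
        - (Fintype.card ι : ℝ) * ((univ.image A).card : ℝ) * ε ^ t ≤ (I.card : ℝ) ∧
      ∀ i ∈ I, ∀ j ∈ I, ε * (Fintype.card X : ℝ) < ((A i ∩ A j).card : ℝ) := by
  classical
  set n : ℕ := Fintype.card X with hn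
  let U : (Fin t → X) → Finset ι := fun T => univ.filter (fun i => ∀ s, T s ∈ A i)
  let P : Finset (ι × Finset X) := (univ ×ˢ univ.image A).filter
    (fun p => ((A p.1 ∩ p.2).card : ℝ) ≤ ε * n)
  let Bad : (Fin t → X) → Finset (ι × Finset X) := fun T =>
    P.filter (fun p => ∀ s, T s ∈ A p.1 ∩ p.2)
  have hcount : ∀ S : Finset X, ((univ.filter (fun T : Fin t → X => ∀ s, T s ∈ S)).card : ℝ)
      = (S.card : ℝ) ^ t := by
    intro S
    have h1 : univ.filter (fun T : Fin t → X => ∀ s, T s ∈ S) = Fintype.piFinset (fun _ => S) := by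
      ext T; simp [Fintype.mem_piFinset]
    rw [h1, Fintype.card_piFinset_const]
    push_cast
    rfl
  have hU : ∑ T : Fin t → X, ((U T).card : ℝ) = ∑ i : ι, ((A i).card : ℝ) ^ t := by
    have h1 : ∀ T : Fin t → X, ((U T).card : ℝ) = ∑ i : ι, if (∀ s, T s ∈ A i) then (1:ℝ) else 0 := by
      intro T
      rw [Finset.sum_boole]
    simp_rw [h1]
    rw [Finset.sum_comm]
    refine Finset.sum_congr rfl (fun i _ => ?_)
    rw [Finset.sum_boole, hcount]
  have hB : ∑ T : Fin t → X, ((Bad T).card : ℝ) = ∑ p ∈ P, ((A p.1 ∩ p.2).card : ℝ) ^ t := by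
    have h1 : ∀ T : Fin t → X, ((Bad T).card : ℝ)
        = ∑ p ∈ P, if (∀ s, T s ∈ A p.1 ∩ p.2) then (1:ℝ) else 0 := by
      intro T
      rw [Finset.sum_boole]
    simp_rw [h1]
    rw [Finset.sum_comm]
    refine Finset.sum_congr rfl (fun p _ => ?_)
    rw [Finset.sum_boole, hcount]
  have hU2 : (Fintype.card ι : ℝ) * (c * n) ^ t ≤ ∑ i : ι, ((A i).card : ℝ) ^ t := by
    rw [← nsmul_eq_mul, ← Finset.card_univ, ← Finset.sum_const]
    exact Finset.sum_le_sum (fun i _ => pow_le_pow_left₀ (by positivity) (hA i) t)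
  have hB2 : ∑ p ∈ P, ((A p.1 ∩ p.2).card : ℝ) ^ t
      ≤ (Fintype.card ι : ℝ) * ((univ.image A).card : ℝ) * (ε * n) ^ t := by
    calc ∑ p ∈ P, ((A p.1 ∩ p.2).card : ℝ) ^ t ≤ ∑ p ∈ P, (ε * n) ^ t := by
          refine Finset.sum_le_sum (fun p hp => ?_)
          exact pow_le_pow_left₀ (by positivity) (Finset.mem_filter.1 hp).2 t
      _ = (P.card : ℝ) * (ε * n) ^ t := by rw [Finset.sum_const, nsmul_eq_mul]
      _ ≤ _ := by
          refine mul_le_mul_of_nonneg_right ?_ (by positivity)
          have h1 : P.card ≤ (univ ×ˢ univ.image A : Finset (ι × Finset X)).card :=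
            Finset.card_filter_le _ _
          rw [Finset.card_product, Finset.card_univ] at h1
          exact_mod_cast h1
  have hex : ∃ T : Fin t → X, (Fintype.card ι : ℝ) * c ^ t
        - (Fintype.card ι : ℝ) * ((univ.image A).card : ℝ) * ε ^ t
        ≤ ((U T).card : ℝ) - ((Bad T).card : ℝ) := by
    by_contra hcon
    push Not at hcon
    have hne : Nonempty X := Fintype.card_pos_iff.1 hX
    have h1 : ∑ T : Fin t → X, (((U T).card : ℝ) - ((Bad T).card : ℝ))
        < ∑ T : Fin t → X, ((Fintype.card ι : ℝ) * c ^ t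
        - (Fintype.card ι : ℝ) * ((univ.image A).card : ℝ) * ε ^ t) := by
      apply Finset.sum_lt_sum_of_nonempty Finset.univ_nonempty
      intro T _
      exact hcon T
    rw [Finset.sum_sub_distrib, hU, hB, Finset.sum_const, nsmul_eq_mul, Finset.card_univ,
      Fintype.card_fun, Fintype.card_fin, ← hn] at h1
    push_cast at h1
    have h2 : (n:ℝ) ^ t * ((Fintype.card ι : ℝ) * c ^ t
        - (Fintype.card ι : ℝ) * ((univ.image A).card : ℝ) * ε ^ t)
        = (Fintype.card ι : ℝ) * (c * n) ^ t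
          - (Fintype.card ι : ℝ) * ((univ.image A).card : ℝ) * (ε * n) ^ t := by
      rw [mul_pow, mul_pow]; ring
    rw [h2] at h1
    linarith
  obtain ⟨T, hT⟩ := hex
  refine ⟨U T \ (Bad T).image Prod.fst, ?_, ?_⟩
  · refine hT.trans ?_
    have h1 : (U T).card ≤ (U T \ (Bad T).image Prod.fst).card + ((Bad T).image Prod.fst).card := by
      have := Finset.card_le_card (Finset.subset_union_left (s₁ := U T) (s₂ := (Bad T).image Prod.fst))
      rw [← Finset.sdiff_union_self_eq_union] at this
      exact this.trans (Finset.card_union_le _ _)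
    have h2 : ((Bad T).image Prod.fst).card ≤ (Bad T).card := Finset.card_image_le
    have h3 : ((U T).card : ℝ) ≤ ((U T \ (Bad T).image Prod.fst).card : ℝ) + ((Bad T).card : ℝ) := by
      exact_mod_cast h1.trans (Nat.add_le_add_left h2 _)
    linarith
  · intro i hi j hj
    by_contra hcon
    push Not at hcon
    rw [Finset.mem_sdiff] at hi hj
    apply hi.2
    rw [Finset.mem_image]
    refine ⟨(i, A j), ?_, rfl⟩
    have hi1 := (Finset.mem_filter.1 hi.1).2
    have hj1 := (Finset.mem_filter.1 hj.1).2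
    refine Finset.mem_filter.2 ⟨Finset.mem_filter.2 ⟨?_, hcon⟩, ?_⟩
    · exact Finset.mem_product.2 ⟨Finset.mem_univ _, Finset.mem_image_of_mem _ (Finset.mem_univ _)⟩
    · intro s
      exact Finset.mem_inter.2 ⟨hi1 s, hj1 s⟩

end Pool.Agent.H193R2.DRC
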